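import Pool.Agent.R3M.Stmts

/-! R3M rows ADT, ADU, ADC, ADD, ADG, ADJ: near pairs of the state families. -/

set_option autoImplicit false

namespace Pool.Agent.R3M.H94

variable {α : Type} [DecidableEq α]

/-- Membership in the removed part. -/
def InR (g f h : ℕ → α) (i j : ℕ) (RX RY : Finset ℕ) (u : α) : Prop :=
  (∃ t ∈ RX, g t = u) ∨ (∃ t, i ≤ t ∧ t ≤ j ∧ f t = u) ∨ (∃ t ∈ RY, h t = u)

/-- Membership in the added part. -/
def InA (d z e : ℕ → α) (i j : ℕ) (X Y : Finset ℕ) (u : α) : Prop :=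
  (∃ t ∈ X, d t = u) ∨ (∃ t, i ≤ t ∧ t < j ∧ z t = u) ∨ (∃ t ∈ Y, e t = u)

theorem mem_VS (P : Finset α) (g d f z h e : ℕ → α) (i j : ℕ) (X RX Y RY : Finset ℕ) (u : α) :
    u ∈ VS P g d f z h e i j X RX Y RY ↔
      (u ∈ P ∧ ¬ InR g f h i j RX RY u) ∨ InA d z e i j X Y u := by
  unfold VS InR InA
  simp only [Finset.mem_union, Finset.mem_sdiff, Finset.mem_image, Finset.mem_Icc,
    Finset.mem_Ico, or_assoc, and_assoc]

theorem card_le_one_of {s : Finset α} (x : α) (hx : ∀ u ∈ s, u = x) : s.card ≤ 1 := by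
  rw [Finset.card_le_one]
  intro a ha b hb
  rw [hx a ha, hx b hb]

theorem near_VS {P : Finset α} {g d f z h e : ℕ → α} {i j i' j' : ℕ}
    {X RX Y RY X' RX' Y' RY' : Finset ℕ} (x y : α)
    (h1 : ∀ u, InR g f h i' j' RX' RY' u → InR g f h i j RX RY u ∨ u = x)
    (h2 : ∀ u, InA d z e i j X Y u → InA d z e i' j' X' Y' u ∨ u = x)
    (h3 : ∀ u, InR g f h i j RX RY u → InR g f h i' j' RX' RY' u ∨ u = y)
    (h4 : ∀ u, InA d z e i' j' X' Y' u → InA d z e i j X Y u ∨ u = y) :
    Near (VS P g d f z h e i j X RX Y RY) (VS P g d f z h e i' j' X' RX' Y' RY') := by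
  constructor
  · apply card_le_one_of x
    intro u hu
    rw [Finset.mem_sdiff, mem_VS, mem_VS] at hu
    obtain ⟨hu1, hu2⟩ := hu
    rw [not_or] at hu2
    rcases hu1 with ⟨hP, hR⟩ | hA
    · by_contra hx
      apply hu2.1
      refine ⟨hP, fun hR' => ?_⟩
      rcases h1 u hR' with h | h
      · exact hR h
      · exact hx h
    · rcases h2 u hA with h | h
      · exact absurd h hu2.2
      · exact h
  · apply card_le_one_of y
    intro u hu
    rw [Finset.mem_sdiff, mem_VS, mem_VS] at hu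
    obtain ⟨hu1, hu2⟩ := hu
    rw [not_or] at hu2
    rcases hu1 with ⟨hP, hR⟩ | hA
    · by_contra hx
      apply hu2.1
      refine ⟨hP, fun hR' => ?_⟩
      rcases h3 u hR' with h | h
      · exact hR h
      · exact hx h
    · rcases h4 u hA with h | h
      · exact absurd h hu2.2
      · exact h

theorem mem_X1 (a : ℕ) (σ : Bool) (i t : ℕ) :
    t ∈ X1 a σ i ↔ σ = true ∧ t < a ∧ (i = 0 → t + 1 < a) := by
  unfold X1
  cases σ
  · simp
  · by_cases hi : i = 0
    · subst hi
      simp only [if_true, Finset.mem_range, true_and, forall_const]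
      omega
    · simp only [if_true, if_neg hi, Finset.mem_range, true_and]
      constructor
      · intro h; exact ⟨h, fun h' => absurd h' hi⟩
      · intro h; exact h.1

theorem mem_RX1 (a : ℕ) (σ : Bool) (i t : ℕ) :
    t ∈ RX1 a σ i ↔ (σ = true ∧ t < a) ∨ (σ = false ∧ i = 0 ∧ t = 0) := by
  unfold RX1
  cases σ
  · by_cases hi : i = 0
    · subst hi
      simp
    · simp [hi]
  · simp

theorem mem_Y2 (b l : ℕ) (τ : Bool) (j t : ℕ) :
    t ∈ Y2 b l τ j ↔ τ = true ∧ t < b ∧ (j = l → t + 1 < b) := by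
  unfold Y2
  cases τ
  · simp
  · by_cases hi : j = l
    · subst hi
      simp only [if_true, Finset.mem_range, true_and, forall_const]
      omega
    · simp only [if_true, if_neg hi, Finset.mem_range, true_and]
      constructor
      · intro h; exact ⟨h, fun h' => absurd h' hi⟩
      · intro h; exact h.1

theorem mem_RY2 (b l : ℕ) (τ : Bool) (j t : ℕ) :
    t ∈ RY2 b l τ j ↔ (τ = true ∧ t < b) ∨ (τ = false ∧ j = l ∧ t = 0) := by
  unfold RY2
  cases τ
  · by_cases hi : j = l
    · subst hi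
      simp
    · simp [hi]
  · simp

/-- Change of `j` to `j + 1`, any first mode which contains the same indices. -/
theorem near_j {P : Finset α} {a l b : ℕ} {g d f z h e : ℕ → α} (hb : 1 ≤ b)
    (hfl : f l = h 0) (τ : Bool) (i j : ℕ) (X RX : Finset ℕ) (hij : i ≤ j) (hj : j < l) :
    Near (VS P g d f z h e i j X RX (Y2 b l τ j) (RY2 b l τ j))
      (VS P g d f z h e i (j + 1) X RX (Y2 b l τ (j + 1)) (RY2 b l τ (j + 1))) := by
  by_cases hc : τ = true ∧ j + 1 = l
  · obtain ⟨rfl, hl⟩ := hc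
    refine near_VS (e (b - 1)) (z j) ?_ ?_ ?_ ?_
    · rintro u (h1 | ⟨t, h1, h2, rfl⟩ | ⟨t, h1, rfl⟩)
      · exact Or.inl (Or.inl h1)
      · left
        by_cases ht : t = j + 1
        · subst ht
          right; right
          refine ⟨0, ?_, ?_⟩
          · rw [mem_RY2]; left; exact ⟨rfl, by omega⟩
          · rw [hl, hfl]
        · exact Or.inr (Or.inl ⟨t, h1, by omega, rfl⟩)
      · left; right; right
        rw [mem_RY2] at h1
        refine ⟨t, ?_, rfl⟩
        rw [mem_RY2]
        rcases h1 with h1 | h1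
        · exact Or.inl h1
        · exact absurd h1.1 (by decide)
    · rintro u (h1 | ⟨t, h1, h2, rfl⟩ | ⟨t, h1, rfl⟩)
      · exact Or.inl (Or.inl h1)
      · exact Or.inl (Or.inr (Or.inl ⟨t, h1, by omega, rfl⟩))
      · rw [mem_Y2] at h1
        by_cases ht : t + 1 < b
        · left; right; right
          refine ⟨t, ?_, rfl⟩
          rw [mem_Y2]
          exact ⟨rfl, h1.2.1, fun _ => ht⟩
        · right
          have h3 : t = b - 1 := by have := h1.2.1; omega
          rw [h3]
    · rintro u (h1 | ⟨t, h1, h2, rfl⟩ | ⟨t, h1, rfl⟩)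
      · exact Or.inl (Or.inl h1)
      · exact Or.inl (Or.inr (Or.inl ⟨t, h1, by omega, rfl⟩))
      · left; right; right
        rw [mem_RY2] at h1
        refine ⟨t, ?_, rfl⟩
        rw [mem_RY2]
        rcases h1 with h1 | h1
        · exact Or.inl h1
        · exact absurd h1.1 (by decide)
    · rintro u (h1 | ⟨t, h1, h2, rfl⟩ | ⟨t, h1, rfl⟩)
      · exact Or.inl (Or.inl h1)
      · by_cases ht : t = j
        · right; rw [ht]
        · exact Or.inl (Or.inr (Or.inl ⟨t, h1, by omega, rfl⟩))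
      · left; right; right
        rw [mem_Y2] at h1
        refine ⟨t, ?_, rfl⟩
        rw [mem_Y2]
        exact ⟨rfl, h1.2.1, fun h' => absurd h' (by omega)⟩
  · refine near_VS (f (j + 1)) (z j) ?_ ?_ ?_ ?_
    · rintro u (h1 | ⟨t, h1, h2, rfl⟩ | ⟨t, h1, rfl⟩)
      · exact Or.inl (Or.inl h1)
      · by_cases ht : t = j + 1
        · right; rw [ht]
        · exact Or.inl (Or.inr (Or.inl ⟨t, h1, by omega, rfl⟩))
      · rw [mem_RY2] at h1
        rcases h1 with h1 | h1
        · left; right; right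
          exact ⟨t, by rw [mem_RY2]; exact Or.inl h1, rfl⟩
        · right
          rw [h1.2.2, h1.2.1, hfl]
    · rintro u (h1 | ⟨t, h1, h2, rfl⟩ | ⟨t, h1, rfl⟩)
      · exact Or.inl (Or.inl h1)
      · exact Or.inl (Or.inr (Or.inl ⟨t, h1, by omega, rfl⟩))
      · rw [mem_Y2] at h1
        left; right; right
        refine ⟨t, ?_, rfl⟩
        rw [mem_Y2]
        exact ⟨h1.1, h1.2.1, fun h' => absurd ⟨h1.1, h'⟩ hc⟩
    · rintro u (h1 | ⟨t, h1, h2, rfl⟩ | ⟨t, h1, rfl⟩)
      · exact Or.inl (Or.inl h1)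
      · exact Or.inl (Or.inr (Or.inl ⟨t, h1, by omega, rfl⟩))
      · rw [mem_RY2] at h1
        left; right; right
        refine ⟨t, ?_, rfl⟩
        rw [mem_RY2]
        rcases h1 with h1 | h1
        · exact Or.inl h1
        · exact absurd h1.2.1 (by omega)
    · rintro u (h1 | ⟨t, h1, h2, rfl⟩ | ⟨t, h1, rfl⟩)
      · exact Or.inl (Or.inl h1)
      · by_cases ht : t = j
        · right; rw [ht]
        · exact Or.inl (Or.inr (Or.inl ⟨t, h1, by omega, rfl⟩))
      · left; right; right
        rw [mem_Y2] at h1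
        refine ⟨t, ?_, rfl⟩
        rw [mem_Y2]
        exact ⟨h1.1, h1.2.1, fun h' => absurd h' (by omega)⟩

/-- Change of `i` to `i + 1`. -/
theorem near_i {P : Finset α} {a : ℕ} {g d f z h e : ℕ → α} (ha : 1 ≤ a)
    (hf0 : f 0 = g 0) (σ : Bool) (i j : ℕ) (Y RY : Finset ℕ) (hij : i < j) :
    Near (VS P g d f z h e i j (X1 a σ i) (RX1 a σ i) Y RY)
      (VS P g d f z h e (i + 1) j (X1 a σ (i + 1)) (RX1 a σ (i + 1)) Y RY) := by
  by_cases hc : σ = true ∧ i = 0
  · obtain ⟨rfl, rfl⟩ := hc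
    refine near_VS (z 0) (d (a - 1)) ?_ ?_ ?_ ?_
    · rintro u (⟨t, h1, rfl⟩ | ⟨t, h1, h2, rfl⟩ | h1)
      · left; left
        rw [mem_RX1] at h1
        refine ⟨t, ?_, rfl⟩
        rw [mem_RX1]
        rcases h1 with h1 | h1
        · exact Or.inl h1
        · exact absurd h1.1 (by decide)
      · exact Or.inl (Or.inr (Or.inl ⟨t, by omega, by omega, rfl⟩))
      · exact Or.inl (Or.inr (Or.inr h1))
    · rintro u (⟨t, h1, rfl⟩ | ⟨t, h1, h2, rfl⟩ | h1)
      · rw [mem_X1] at h1
        left; left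
        refine ⟨t, ?_, rfl⟩
        rw [mem_X1]
        exact ⟨rfl, h1.2.1, fun h' => absurd h' (by omega)⟩
      · by_cases ht : t = 0
        · right; rw [ht]
        · exact Or.inl (Or.inr (Or.inl ⟨t, by omega, by omega, rfl⟩))
      · exact Or.inl (Or.inr (Or.inr h1))
    · rintro u (⟨t, h1, rfl⟩ | ⟨t, h1, h2, rfl⟩ | h1)
      · rw [mem_RX1] at h1
        left; left
        refine ⟨t, ?_, rfl⟩
        rw [mem_RX1]
        rcases h1 with h1 | h1
        · exact Or.inl h1
        · exact absurd h1.1 (by decide)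
      · by_cases ht : t = 0
        · left; left
          refine ⟨0, ?_, ?_⟩
          · rw [mem_RX1]; exact Or.inl ⟨rfl, by omega⟩
          · rw [ht, hf0]
        · exact Or.inl (Or.inr (Or.inl ⟨t, by omega, by omega, rfl⟩))
      · exact Or.inl (Or.inr (Or.inr h1))
    · rintro u (⟨t, h1, rfl⟩ | ⟨t, h1, h2, rfl⟩ | h1)
      · rw [mem_X1] at h1
        by_cases ht : t + 1 < a
        · left; left
          refine ⟨t, ?_, rfl⟩
          rw [mem_X1]
          exact ⟨rfl, h1.2.1, fun _ => ht⟩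
        · right
          have h3 : t = a - 1 := by have := h1.2.1; omega
          rw [h3]
      · exact Or.inl (Or.inr (Or.inl ⟨t, by omega, by omega, rfl⟩))
      · exact Or.inl (Or.inr (Or.inr h1))
  · refine near_VS (z i) (f i) ?_ ?_ ?_ ?_
    · rintro u (⟨t, h1, rfl⟩ | ⟨t, h1, h2, rfl⟩ | h1)
      · left; left
        rw [mem_RX1] at h1
        refine ⟨t, ?_, rfl⟩
        rw [mem_RX1]
        rcases h1 with h1 | h1
        · exact Or.inl h1
        · exact absurd h1.2.1 (by omega)
      · exact Or.inl (Or.inr (Or.inl ⟨t, by omega, by omega, rfl⟩))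
      · exact Or.inl (Or.inr (Or.inr h1))
    · rintro u (⟨t, h1, rfl⟩ | ⟨t, h1, h2, rfl⟩ | h1)
      · rw [mem_X1] at h1
        left; left
        refine ⟨t, ?_, rfl⟩
        rw [mem_X1]
        exact ⟨h1.1, h1.2.1, fun h' => absurd h' (by omega)⟩
      · by_cases ht : t = i
        · right; rw [ht]
        · exact Or.inl (Or.inr (Or.inl ⟨t, by omega, by omega, rfl⟩))
      · exact Or.inl (Or.inr (Or.inr h1))
    · rintro u (⟨t, h1, rfl⟩ | ⟨t, h1, h2, rfl⟩ | h1)
      · rw [mem_RX1] at h1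
        rcases h1 with h1 | h1
        · left; left
          exact ⟨t, by rw [mem_RX1]; exact Or.inl h1, rfl⟩
        · right
          rw [h1.2.2, h1.2.1, hf0]
      · by_cases ht : t = i
        · right; rw [ht]
        · exact Or.inl (Or.inr (Or.inl ⟨t, by omega, by omega, rfl⟩))
      · exact Or.inl (Or.inr (Or.inr h1))
    · rintro u (⟨t, h1, rfl⟩ | ⟨t, h1, h2, rfl⟩ | h1)
      · rw [mem_X1] at h1
        left; left
        refine ⟨t, ?_, rfl⟩
        rw [mem_X1]
        exact ⟨h1.1, h1.2.1, fun h' => absurd ⟨h1.1, h'⟩ hc⟩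
      · exact Or.inl (Or.inr (Or.inl ⟨t, by omega, by omega, rfl⟩))
      · exact Or.inl (Or.inr (Or.inr h1))

/-- Next stage of the first cycle. -/
theorem near_t {P : Finset α} {g d f z h e : ℕ → α} (i j t : ℕ) (Y RY : Finset ℕ) :
    Near (VS P g d f z h e i j (Finset.range t) (Finset.range (t + 1)) Y RY)
      (VS P g d f z h e i j (Finset.range (t + 1)) (Finset.range (t + 1 + 1)) Y RY) := by
  refine near_VS (g (t + 1)) (d t) ?_ ?_ ?_ ?_
  · rintro u (⟨s, h1, rfl⟩ | h1 | h1)
    · rw [Finset.mem_range] at h1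
      by_cases hs : s = t + 1
      · right; rw [hs]
      · left; left; exact ⟨s, by rw [Finset.mem_range]; omega, rfl⟩
    · exact Or.inl (Or.inr (Or.inl h1))
    · exact Or.inl (Or.inr (Or.inr h1))
  · rintro u (⟨s, h1, rfl⟩ | h1 | h1)
    · rw [Finset.mem_range] at h1
      left; left; exact ⟨s, by rw [Finset.mem_range]; omega, rfl⟩
    · exact Or.inl (Or.inr (Or.inl h1))
    · exact Or.inl (Or.inr (Or.inr h1))
  · rintro u (⟨s, h1, rfl⟩ | h1 | h1)
    · rw [Finset.mem_range] at h1
      left; left; exact ⟨s, by rw [Finset.mem_range]; omega, rfl⟩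
    · exact Or.inl (Or.inr (Or.inl h1))
    · exact Or.inl (Or.inr (Or.inr h1))
  · rintro u (⟨s, h1, rfl⟩ | h1 | h1)
    · rw [Finset.mem_range] at h1
      by_cases hs : s = t
      · right; rw [hs]
      · left; left; exact ⟨s, by rw [Finset.mem_range]; omega, rfl⟩
    · exact Or.inl (Or.inr (Or.inl h1))
    · exact Or.inl (Or.inr (Or.inr h1))

/-- Next stage of the second cycle. -/
theorem near_u {P : Finset α} {g d f z h e : ℕ → α} (i j t : ℕ) (X RX : Finset ℕ) :
    Near (VS P g d f z h e i j X RX (Finset.range t) (Finset.range (t + 1)))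
      (VS P g d f z h e i j X RX (Finset.range (t + 1)) (Finset.range (t + 1 + 1))) := by
  refine near_VS (h (t + 1)) (e t) ?_ ?_ ?_ ?_
  · rintro u (h1 | h1 | ⟨s, h1, rfl⟩)
    · exact Or.inl (Or.inl h1)
    · exact Or.inl (Or.inr (Or.inl h1))
    · rw [Finset.mem_range] at h1
      by_cases hs : s = t + 1
      · right; rw [hs]
      · left; right; right; exact ⟨s, by rw [Finset.mem_range]; omega, rfl⟩
  · rintro u (h1 | h1 | ⟨s, h1, rfl⟩)
    · exact Or.inl (Or.inl h1)
    · exact Or.inl (Or.inr (Or.inl h1))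
    · rw [Finset.mem_range] at h1
      left; right; right; exact ⟨s, by rw [Finset.mem_range]; omega, rfl⟩
  · rintro u (h1 | h1 | ⟨s, h1, rfl⟩)
    · exact Or.inl (Or.inl h1)
    · exact Or.inl (Or.inr (Or.inl h1))
    · rw [Finset.mem_range] at h1
      left; right; right; exact ⟨s, by rw [Finset.mem_range]; omega, rfl⟩
  · rintro u (h1 | h1 | ⟨s, h1, rfl⟩)
    · exact Or.inl (Or.inl h1)
    · exact Or.inl (Or.inr (Or.inl h1))
    · rw [Finset.mem_range] at h1
      by_cases hs : s = t
      · right; rw [hs]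
      · left; right; right; exact ⟨s, by rw [Finset.mem_range]; omega, rfl⟩

/-- One inclusion for the diagonal. -/
theorem diag_aux {a l b : ℕ} {g d f z h e : ℕ → α} (ha : 1 ≤ a) (hb : 1 ≤ b) (hl : 1 ≤ l)
    (hf0 : f 0 = g 0) (hfl : f l = h 0) (σ τ : Bool) (i j : ℕ) :
    ∃ x : α,
      (∀ u, InR g f h j j (RX1 a σ j) (RY2 b l τ j) u →
        InR g f h i i (RX1 a σ i) (RY2 b l τ i) u ∨ u = x) ∧
      (∀ u, InA d z e i i (X1 a σ i) (Y2 b l τ i) u →
        InA d z e j j (X1 a σ j) (Y2 b l τ j) u ∨ u = x) := by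
  by_cases hc : σ = true ∧ j = 0
  · obtain ⟨rfl, rfl⟩ := hc
    refine ⟨d (a - 1), ?_, ?_⟩
    · rintro u (⟨t, h1, rfl⟩ | ⟨t, h1, h2, rfl⟩ | ⟨t, h1, rfl⟩)
      · left; left
        rw [mem_RX1] at h1
        refine ⟨t, ?_, rfl⟩
        rw [mem_RX1]
        rcases h1 with h1 | h1
        · exact Or.inl h1
        · exact absurd h1.1 (by decide)
      · left; left
        refine ⟨0, ?_, ?_⟩
        · rw [mem_RX1]; exact Or.inl ⟨rfl, by omega⟩
        · have : t = 0 := by omega
          rw [this, hf0]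
      · rw [mem_RY2] at h1
        rcases h1 with h1 | h1
        · left; right; right
          exact ⟨t, by rw [mem_RY2]; exact Or.inl h1, rfl⟩
        · exact absurd h1.2.1 (by omega)
    · rintro u (⟨t, h1, rfl⟩ | ⟨t, h1, h2, rfl⟩ | ⟨t, h1, rfl⟩)
      · rw [mem_X1] at h1
        by_cases ht : t + 1 < a
        · left; left
          refine ⟨t, ?_, rfl⟩
          rw [mem_X1]
          exact ⟨rfl, h1.2.1, fun _ => ht⟩
        · right
          have h3 : t = a - 1 := by have := h1.2.1; omega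
          rw [h3]
      · exact absurd h2 (by omega)
      · rw [mem_Y2] at h1
        left; right; right
        refine ⟨t, ?_, rfl⟩
        rw [mem_Y2]
        exact ⟨h1.1, h1.2.1, fun h' => absurd h' (by omega)⟩
  · by_cases hc' : τ = true ∧ j = l
    · obtain ⟨rfl, rfl⟩ := hc'
      refine ⟨e (b - 1), ?_, ?_⟩
      · rintro u (⟨t, h1, rfl⟩ | ⟨t, h1, h2, rfl⟩ | ⟨t, h1, rfl⟩)
        · rw [mem_RX1] at h1
          rcases h1 with h1 | h1
          · left; left
            exact ⟨t, by rw [mem_RX1]; exact Or.inl h1, rfl⟩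
          · exact absurd h1.2.1 (by omega)
        · left; right; right
          refine ⟨0, ?_, ?_⟩
          · rw [mem_RY2]; exact Or.inl ⟨rfl, by omega⟩
          · have : t = j := by omega
            rw [this, hfl]
        · left; right; right
          rw [mem_RY2] at h1
          refine ⟨t, ?_, rfl⟩
          rw [mem_RY2]
          rcases h1 with h1 | h1
          · exact Or.inl h1
          · exact absurd h1.1 (by decide)
      · rintro u (⟨t, h1, rfl⟩ | ⟨t, h1, h2, rfl⟩ | ⟨t, h1, rfl⟩)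
        · rw [mem_X1] at h1
          left; left
          refine ⟨t, ?_, rfl⟩
          rw [mem_X1]
          exact ⟨h1.1, h1.2.1, fun h' => absurd h' (by omega)⟩
        · exact absurd h2 (by omega)
        · rw [mem_Y2] at h1
          by_cases ht : t + 1 < b
          · left; right; right
            refine ⟨t, ?_, rfl⟩
            rw [mem_Y2]
            exact ⟨rfl, h1.2.1, fun _ => ht⟩
          · right
            have h3 : t = b - 1 := by have := h1.2.1; omega
            rw [h3]
    · refine ⟨f j, ?_, ?_⟩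
      · rintro u (⟨t, h1, rfl⟩ | ⟨t, h1, h2, rfl⟩ | ⟨t, h1, rfl⟩)
        · rw [mem_RX1] at h1
          rcases h1 with h1 | h1
          · left; left
            exact ⟨t, by rw [mem_RX1]; exact Or.inl h1, rfl⟩
          · right
            rw [h1.2.2, h1.2.1, hf0]
        · right
          have : t = j := by omega
          rw [this]
        · rw [mem_RY2] at h1
          rcases h1 with h1 | h1
          · left; right; right
            exact ⟨t, by rw [mem_RY2]; exact Or.inl h1, rfl⟩
          · right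
            rw [h1.2.2, h1.2.1, hfl]
      · rintro u (⟨t, h1, rfl⟩ | ⟨t, h1, h2, rfl⟩ | ⟨t, h1, rfl⟩)
        · rw [mem_X1] at h1
          left; left
          refine ⟨t, ?_, rfl⟩
          rw [mem_X1]
          exact ⟨h1.1, h1.2.1, fun h' => absurd ⟨h1.1, h'⟩ hc⟩
        · exact absurd h2 (by omega)
        · rw [mem_Y2] at h1
          left; right; right
          refine ⟨t, ?_, rfl⟩
          rw [mem_Y2]
          exact ⟨h1.1, h1.2.1, fun h' => absurd ⟨h1.1, h'⟩ hc'⟩

theorem adt : AdtStmt := by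
  intro α _ M N P S a l b g d f z h e hC
  have ha : 1 ≤ a := by have := hC.c1.two; omega
  have hb : 1 ≤ b := by have := hC.c2.two; omega
  refine ⟨?_, ?_⟩
  · intro σ τ i j hij hj
    exact near_j (a := a) hb hC.fl τ i j (X1 a σ i) (RX1 a σ i) hij hj
  · intro σ τ i j hij _
    exact near_i ha hC.f0 σ i j (Y2 b l τ j) (RY2 b l τ j) hij

theorem adu : AduStmt := by
  intro α _ M N P S a l b g d f z h e hC σ τ i j _ _
  have ha : 1 ≤ a := by have := hC.c1.two; omega
  have hb : 1 ≤ b := by have := hC.c2.two; omega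
  obtain ⟨x, hx1, hx2⟩ := diag_aux (d := d) (z := z) (e := e) ha hb hC.lpos hC.f0 hC.fl σ τ i j
  obtain ⟨y, hy1, hy2⟩ := diag_aux (d := d) (z := z) (e := e) ha hb hC.lpos hC.f0 hC.fl σ τ j i
  exact near_VS x y hx1 hx2 hy1 hy2

theorem adc : AdcStmt := by
  intro α _ M N P S a l b g d f z h e hC
  have hb : 1 ≤ b := by have := hC.c2.two; omega
  refine ⟨?_, ?_⟩
  · intro τ t j _ _
    exact near_t 0 j t (Y2 b l τ j) (RY2 b l τ j)
  · intro τ t j _ hj
    exact near_j (a := a) hb hC.fl τ 0 j (Finset.range t) (Finset.range (t + 1)) (Nat.zero_le j) hj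

theorem add : AddStmt := by
  intro α _ M N P S a l b g d f z h e hC
  have ha : 1 ≤ a := by have := hC.c1.two; omega
  refine ⟨?_, ?_⟩
  · intro σ i u _ _
    exact near_u i l u (X1 a σ i) (RX1 a σ i)
  · intro σ i u hi _
    exact near_i ha hC.f0 σ i l (Finset.range u) (Finset.range (u + 1)) hi

theorem adg : AdgStmt := by
  intro α _ M N P S a l b g d f z h e _
  refine ⟨?_, ?_⟩
  · intro t u _ _
    exact near_t 0 l t (Finset.range u) (Finset.range (u + 1))
  · intro t u _ _
    exact near_u 0 l u (Finset.range t) (Finset.range (t + 1))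

theorem adj : AdjStmt := by
  intro α _ M N P S a l b g d f z h e hC
  obtain ⟨t1, t2⟩ := adt α M N P S a l b g d f z h e hC
  obtain ⟨c1, c2⟩ := adc α M N P S a l b g d f z h e hC
  obtain ⟨d1, d2⟩ := add α M N P S a l b g d f z h e hC
  obtain ⟨g1, g2⟩ := adg α M N P S a l b g d f z h e hC
  exact ⟨t1, t2, adu α M N P S a l b g d f z h e hC, c1, c2, d1, d2, g1, g2⟩

end Pool.Agent.R3M.H94
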